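import Pool.Agent.P.MP_713680_gt.Bridge

open scoped ContDiff Manifold
open Pool.Agent.P.MP_713680_gt

/-- There is a closed manifold with almost nonnegative sectional curvature that does not admit
almost nonnegative curvature operator. -/
theorem Pool.Agent.Results.MP_713680_gt.Separation.result :
    ∃ (n : ℕ) (M : Type) (_ : TopologicalSpace M) (_ : T2Space M) (_ : CompactSpace M)
      (_ : ConnectedSpace M) (_ : ChartedSpace (EuclideanSpace ℝ (Fin n)) M)
      (_ : IsManifold (𝓡 n) ∞ M),
      Spec.AlmostNonnegSec M (EuclideanSpace.basisFun (Fin n) ℝ).toBasis ∧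
        ¬ Spec.AlmostNonnegCurvOp M (EuclideanSpace.basisFun (Fin n) ℝ).toBasis := by
  obtain ⟨n, M, i1, i2, i3, i4, i5, i6, h1, h2⟩ := final
  exact ⟨n, M, i1, i2, i3, i4, i5, i6, BridgeP.sec_iff.2 h1, fun h => h2 (BridgeP.op_iff.1 h)⟩
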